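import Pool.Agent.K4H14.FG.Main

/-!
# The primes `n² + 1` are not uniformly distributed among the admissible progressions
-/

set_option autoImplicit false

namespace Pool.Agent.Results.MP_f1a94e_nt.NoUniformProgressions

open Finset Filter
open Pool.Agent.K4H14.FG

/-- the number of `n` with `1 ≤ n ≤ X`, `n ≡ a (mod q)` and `n² + 1` prime -/
def primeCount (X q a : ℕ) : ℕ :=
  ((Icc 1 X).filter (fun n : ℕ => n ≡ a [MOD q] ∧ (n ^ 2 + 1).Prime)).card

/-- the number of classes `b` modulo `q` such that `b² + 1` is prime to `q` -/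
def classes (q : ℕ) : ℕ := ((range q).filter (fun b : ℕ => Nat.Coprime (b ^ 2 + 1) q)).card

/-- the class `a` modulo `q` is admissible, and the number of primes `n² + 1`, `n ≤ X`,
`n ≡ a (mod q)`, differs from the share `E / classes q` by at least `δ` times that share -/
def Deviates (δ E : ℝ) (X q a : ℕ) : Prop :=
  Nat.Coprime (a ^ 2 + 1) q ∧
    δ * (E / classes q) ≤ |(primeCount X q a : ℝ) - E / classes q|

open Classical in
/-- the pairs `(q, a)` with `1 ≤ q`, `q (log X) ^ B ≤ X`, `a < q`, for which the class `a`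
modulo `q` deviates -/
noncomputable def deviatingPairs (δ E : ℝ) (B X : ℕ) : Finset (ℕ × ℕ) :=
  ((Icc 1 X) ×ˢ (range X)).filter (fun p : ℕ × ℕ =>
    p.2 < p.1 ∧ (p.1 : ℝ) * Real.log X ^ B ≤ X ∧ Deviates δ E X p.1 p.2)

/-- the constant of the theorem -/
noncomputable def delta (B : ℕ) : ℝ := 1 / (500 * B) ^ (55 * B)

theorem delta_pos (B : ℕ) (hB : 1 ≤ B) : 0 < delta B := by
  unfold delta
  have : (1 : ℝ) ≤ B := by exact_mod_cast hB
  positivity

theorem delta_small (B : ℕ) (hB : 1 ≤ B) :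
    2 ^ (12 * B + 42) * (54 * (4 * delta B)) < (1 / (4 * ((12 * B + 42 : ℕ) : ℝ))) ^ (12 * B + 42) := by
  have hB1 : (1 : ℝ) ≤ B := by exact_mod_cast hB
  have hN : ((12 * B + 42 : ℕ) : ℝ) ≤ 54 * B := by
    push_cast
    linarith
  have hNpos : (0 : ℝ) < ((12 * B + 42 : ℕ) : ℝ) := by positivity
  have h1 : (8 * ((12 * B + 42 : ℕ) : ℝ)) ^ (12 * B + 42) ≤ (432 * B) ^ (54 * B) := by
    calc (8 * ((12 * B + 42 : ℕ) : ℝ)) ^ (12 * B + 42) ≤ (432 * B) ^ (12 * B + 42) := by
          apply pow_le_pow_left₀ (by positivity)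
          linarith
      _ ≤ (432 * B) ^ (54 * B) := pow_le_pow_right₀ (by linarith) (by omega)
  have h2 : 216 * (432 * (B : ℝ)) ^ (54 * B) < (500 * B) ^ (55 * B) := by
    have h3 : (500 * (B : ℝ)) ^ (55 * B) = (500 * B) ^ (54 * B) * (500 * B) ^ B := by
      rw [← pow_add]
      congr 1
      ring
    have h4 : (432 * (B : ℝ)) ^ (54 * B) ≤ (500 * B) ^ (54 * B) :=
      pow_le_pow_left₀ (by positivity) (by linarith) _
    have h5 : (500 : ℝ) ≤ (500 * B) ^ B := by
      calc (500 : ℝ) ≤ 500 * B := by linarith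
        _ = (500 * B) ^ 1 := (pow_one _).symm
        _ ≤ (500 * B) ^ B := pow_le_pow_right₀ (by linarith) hB
    have h6 : 0 < (500 * (B : ℝ)) ^ (54 * B) := by positivity
    rw [h3]
    nlinarith
  have hD : (0 : ℝ) < (500 * B) ^ (55 * B) := by positivity
  rw [div_pow, one_pow, lt_div_iff₀ (by positivity)]
  have h7 : 2 ^ (12 * B + 42) * (54 * (4 * delta B)) * (4 * ((12 * B + 42 : ℕ) : ℝ)) ^ (12 * B + 42) =
      216 * (8 * ((12 * B + 42 : ℕ) : ℝ)) ^ (12 * B + 42) / (500 * B) ^ (55 * B) := by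
    have h8 : (8 * ((12 * B + 42 : ℕ) : ℝ)) ^ (12 * B + 42) =
        2 ^ (12 * B + 42) * (4 * ((12 * B + 42 : ℕ) : ℝ)) ^ (12 * B + 42) := by
      rw [← mul_pow]
      congr 1
      ring
    rw [h8]
    unfold delta
    ring
  rw [h7, div_lt_one hD]
  calc 216 * (8 * ((12 * B + 42 : ℕ) : ℝ)) ^ (12 * B + 42) ≤ 216 * (432 * (B : ℝ)) ^ (54 * B) := by
        linarith
    _ < _ := h2

theorem delta_le (B : ℕ) (hB : 1 ≤ B) : delta B ≤ 1 / 500 := by
  have hB1 : (1 : ℝ) ≤ B := by exact_mod_cast hB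
  unfold delta
  apply div_le_div_of_nonneg_left (by norm_num) (by norm_num)
  calc (500 : ℝ) ≤ 500 * B := by linarith
    _ = (500 * B) ^ 1 := (pow_one _).symm
    _ ≤ (500 * B) ^ (55 * B) := pow_le_pow_right₀ (by linarith) (by omega)

/-- **Result.** Let `B ≥ 1` be an integer, `ε > 0` and `δ = (500 B) ^ (-55 B)`. For all large `x`
and every function `E` there is an `X` with `x ≤ X ≤ x (log x) ^ (3B + 11)` such that

* either there are `q ≤ X ^ ε` and an admissible class `a` modulo `q` such that the number of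
  `n ≤ X`, `n ≡ a (mod q)`, with `n² + 1` prime differs from `E(X) / classes q` by at least
  `δ E(X) / classes q`,
* or the same happens for at least `X ^ (2 - ε)` pairs `(q, a)` with `q ≤ X / (log X) ^ B`. -/
theorem result (B : ℕ) (hB : 1 ≤ B) (ε : ℝ) (hε : 0 < ε) :
    ∃ x₀ : ℕ, ∀ x : ℕ, x₀ ≤ x → ∀ E : ℕ → ℝ, ∃ X : ℕ, x ≤ X ∧
      (X : ℝ) ≤ x * Real.log x ^ (3 * B + 11) ∧
      ((∃ q a : ℕ, 1 ≤ q ∧ (q : ℝ) ≤ (X : ℝ) ^ ε ∧ Deviates (delta B) (E X) X q a) ∨
        (X : ℝ) ^ (2 - ε) ≤ ((deviatingPairs (delta B) (E X) B X).card : ℝ)) := by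
  classical
  have hd0 := delta_pos B hB
  have hd1 := delta_le B hB
  have hd2 := delta_small B hB
  generalize delta B = δ at hd0 hd1 hd2
  obtain ⟨x₁, hx₁⟩ := main_aux B (min ε 1) (by positivity) (min_le_right _ _) (4 * δ)
    (by positivity) (by linarith)
  have hlog : Tendsto (fun X : ℕ => Real.log X) atTop atTop :=
    Real.tendsto_log_atTop.comp tendsto_natCast_atTop_atTop
  obtain ⟨x₂, hx₂⟩ := eventually_atTop.1 ((hlog.eventually_ge_atTop (64 * 4 ^ (3 * B + 10))).and
    (hlog.eventually_ge_atTop 1))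
  refine ⟨x₁ + x₂ + 2, fun x hx E => ?_⟩
  by_contra hcon
  push Not at hcon
  obtain ⟨hlx, hlx1⟩ := hx₂ x (by omega)
  have hx0 : (2 : ℝ) ≤ x := by exact_mod_cast (by omega : 2 ≤ x)
  apply absurd (hx₁ (2 * x) (by omega) ?_) (not_le.2 hd2)
  intro X hX1 hX2
  have hxX : x ≤ X := by omega
  have hXup : (X : ℝ) ≤ x * Real.log x ^ (3 * B + 11) := by
    refine hX2.trans ?_
    have h1 : Real.log ((2 * x : ℕ) : ℝ) ≤ 2 * Real.log x := by
      have h2 : (2 : ℝ) * Real.log x = Real.log ((x : ℝ) ^ 2) := by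
        rw [Real.log_pow]; norm_num
      rw [h2]
      apply Real.log_le_log (by push_cast; linarith)
      push_cast
      nlinarith
    have h0 : 0 ≤ Real.log ((2 * x : ℕ) : ℝ) := Real.log_natCast_nonneg _
    calc 32 * (2 * Real.log ((2 * x : ℕ) : ℝ)) ^ (3 * B + 10) * ((2 * x : ℕ) : ℝ) ≤
        32 * (2 * (2 * Real.log x)) ^ (3 * B + 10) * ((2 * x : ℕ) : ℝ) := by gcongr
      _ = x * ((64 * 4 ^ (3 * B + 10)) * Real.log x ^ (3 * B + 10)) := by
          have : (2 * (2 * Real.log x)) = 4 * Real.log x := by ring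
          rw [this, mul_pow]
          push_cast
          ring
      _ ≤ x * (Real.log x * Real.log x ^ (3 * B + 10)) := by gcongr
      _ = x * Real.log x ^ (3 * B + 11) := by ring
  obtain ⟨c1, c2⟩ := hcon X hxX hXup
  have hX0 : (1 : ℝ) ≤ X := by
    have : 1 ≤ X := by omega
    exact_mod_cast this
  -- good pairs
  have hcls : ∀ q, 1 ≤ q → (0 : ℝ) < classes q := by
    intro q hq
    exact_mod_cast cls_pos q hq
  have h11 : (classes 1 : ℝ) = 1 := by exact_mod_cast cls_one
  have hq1 : |(primeCount X 1 0 : ℝ) - E X| < δ * E X := by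
    have h1 := c1 1 0 le_rfl (by
      rw [Nat.cast_one]
      exact Real.one_le_rpow hX0 hε.le)
    unfold Deviates at h1
    push Not at h1
    have h2 := h1 (by simp)
    rw [h11, div_one] at h2
    exact h2
  have hE0 : 0 < E X := by
    have h1 : 0 < δ * E X := lt_of_le_of_lt (abs_nonneg _) hq1
    exact (pos_iff_pos_of_mul_pos h1).1 hd0
  rw [abs_lt] at hq1
  have hG0 : E X / 2 ≤ (primeCount X 1 0 : ℝ) := by nlinarith [hq1.1]
  have hGpos : 0 < (primeCount X 1 0 : ℝ) := by linarith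
  have hgood : ∀ q a : ℕ, 1 ≤ q → Nat.Coprime (a ^ 2 + 1) q → ¬ Deviates δ (E X) X q a →
      |(cnt X q a : ℝ) - cnt X 1 0 / cls q| ≤ 4 * δ * (cnt X 1 0 / cls q) := by
    intro q a hq hcop hnd
    unfold Deviates at hnd
    push Not at hnd
    have h1 := hnd hcop
    have hc := hcls q hq
    change |(primeCount X q a : ℝ) - primeCount X 1 0 / classes q| ≤
      4 * δ * (primeCount X 1 0 / classes q)
    have h2 : (primeCount X q a : ℝ) - primeCount X 1 0 / classes q =
        ((primeCount X q a : ℝ) - E X / classes q) - (primeCount X 1 0 - E X) / classes q := by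
      field_simp
      ring
    have h3 : |((primeCount X 1 0 : ℝ) - E X) / classes q| ≤ δ * (E X / classes q) := by
      rw [abs_div, abs_of_pos hc, mul_div_assoc']
      apply div_le_div_of_nonneg_right _ hc.le
      exact abs_le.2 ⟨hq1.1.le, hq1.2.le⟩
    have h4 : E X / classes q ≤ 2 * (primeCount X 1 0 / classes q) := by
      rw [mul_div_assoc']
      apply div_le_div_of_nonneg_right _ hc.le
      linarith
    rw [h2]
    refine (abs_sub _ _).trans ?_
    have h5 : δ * (E X / classes q) ≤ δ * (2 * (primeCount X 1 0 / classes q)) :=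
      mul_le_mul_of_nonneg_left h4 hd0.le
    linarith
  refine ⟨by exact_mod_cast hGpos, ?_, ?_⟩
  · intro q a hq hqX hcop
    apply hgood q a hq hcop
    apply c1 q a hq
    exact hqX.trans (Real.rpow_le_rpow_of_exponent_le hX0 (min_le_left _ _))
  · have h1 : ∑ q ∈ mo B X, ((bd (4 * δ) X q).card : ℝ) ≤
        ((deviatingPairs δ (E X) B X).card : ℝ) := by
      have h2 : ∑ q ∈ mo B X, (bd (4 * δ) X q).card = ((mo B X).sigma (fun q => bd (4 * δ) X q)).card :=
        (card_sigma _ _).symm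
      have h3 : ((mo B X).sigma (fun q => bd (4 * δ) X q)).card ≤
          (deviatingPairs δ (E X) B X).card := by
        apply card_le_card_of_injOn (fun p => (p.1, p.2))
        · intro p hp
          simp only [coe_sigma, Set.mem_sigma_iff, mem_coe] at hp
          obtain ⟨hp1, hp2⟩ := hp
          unfold mo at hp1
          unfold bd at hp2
          rw [mem_filter, mem_Icc] at hp1
          rw [mem_filter, mem_range] at hp2
          unfold deviatingPairs
          rw [mem_coe, mem_filter, mem_product, mem_Icc, mem_range]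
          refine ⟨⟨hp1.1, by simp only; omega⟩, hp2.1, hp1.2, ?_⟩
          by_contra hnd
          exact hp2.2.2 (hgood p.1 p.2 hp1.1.1 hp2.2.1 hnd)
        · rintro ⟨q, a⟩ _ ⟨q', a'⟩ _ h
          simp only [Prod.mk.injEq] at h
          obtain ⟨rfl, rfl⟩ := h
          rfl
      rw [← h2] at h3
      exact_mod_cast h3
    refine lt_of_le_of_lt h1 (c2.trans_le ?_)
    exact Real.rpow_le_rpow_of_exponent_le hX0 (by linarith [min_le_left ε 1])

end Pool.Agent.Results.MP_f1a94e_nt.NoUniformProgressions
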